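import Pool.Agent.H28.GN.T3
import Pool.Agent.H67.LF.MEA

/-! Row MEG of the board `thg_modules` (problem MP_c59857_nt): the limit of the means for one
box. -/

set_option autoImplicit false

open MeasureTheory ProbabilityTheory Filter Topology Finset
open scoped Nat ENNReal

namespace Pool.Agent.H7.GNG

open Pool.Agent.H28.GN Pool.Agent.H67.LF
open Pool.Agent.H28.LF (Xi shX wX)

section core

variable {Ω : Type} [MeasurableSpace Ω] {P : Measure Ω} [IsProbabilityMeasure P]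

theorem tw_iso {T : Ω → Ω} (hT : MeasurePreserving T P P) {q : Ω → ℂ} (hq : Measurable q)
    (h1 : ∀ ω, ‖q ω‖ = 1) (ψ : Lp ℂ 2 P) : ‖tw hT hq h1 ψ‖ = ‖ψ‖ := by
  show ‖(tw_memLp hT hq h1 ψ).toLp _‖ = ‖ψ‖
  rw [Lp.norm_toLp, Lp.norm_def]
  congr 1
  rw [← eLpNorm_comp_measurePreserving (Lp.aestronglyMeasurable ψ) hT]
  refine eLpNorm_congr_norm_ae (Eventually.of_forall fun ω => ?_)
  rw [norm_mul, h1, one_mul]
  rfl

/-- the twisted composition as an isometry -/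
noncomputable def twi {T : Ω → Ω} (hT : MeasurePreserving T P P) {q : Ω → ℂ}
    (hq : Measurable q) (h1 : ∀ ω, ‖q ω‖ = 1) : Lp ℂ 2 P →ₗᵢ[ℂ] Lp ℂ 2 P :=
  ⟨(tw hT hq h1).toLinearMap, tw_iso hT hq h1⟩

theorem tw_inner {T : Ω → Ω} (hT : MeasurePreserving T P P) {q : Ω → ℂ} (hq : Measurable q)
    (h1 : ∀ ω, ‖q ω‖ = 1) (x y : Lp ℂ 2 P) :
    inner ℂ (tw hT hq h1 x) (tw hT hq h1 y) = inner ℂ x y :=
  (twi hT hq h1).inner_map_map x y

theorem meg_core {T : Ω → Ω} (hE : Ergodic T P) {q : Ω → ℂ} (hq : Measurable q)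
    (h1 : ∀ ω, ‖q ω‖ = 1) : ∃ (c : ℝ) (m : Ω → ℂ), Measurable m ∧
      (∀ᵐ ω ∂P, ‖m ω‖ ^ 2 = c) ∧ (∀ᵐ ω ∂P, q ω * m (T ω) = m ω) ∧
      Tendsto (fun K => ∫ ω, ‖SK T q K ω‖ ^ 2 ∂P) atTop (𝓝 c) ∧
      ∀ K, 0 < K → ∫ ω, ‖SK T q K ω - m ω‖ ^ 2 ∂P = ∫ ω, ‖SK T q K ω‖ ^ 2 ∂P - c := by
  have hT := hE.toMeasurePreserving
  have ht := (tw hT hq h1).tendsto_birkhoffAverage_orthogonalProjection (tw_norm hT hq h1)
    (tw hT hq h1 (on P))
  set S := (tw hT hq h1).eqLocus (1 : Lp ℂ 2 P →L[ℂ] Lp ℂ 2 P) with hS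
  set x₀ : Lp ℂ 2 P := tw hT hq h1 (on P) with hx₀
  set M : Lp ℂ 2 P := (S.orthogonalProjectionOnto x₀).1 with hM
  have hMS : M ∈ S := (S.orthogonalProjectionOnto x₀).2
  have hMM : tw hT hq h1 M = M := hMS
  have hin0 : inner ℂ x₀ M = inner ℂ M M := by
    have h2 : inner ℂ (x₀ - M) M = 0 := by
      have h3 := S.starProjection_inner_eq_zero x₀ M hMS
      exact h3
    rw [inner_sub_left, sub_eq_zero] at h2
    exact h2
  have hiter : ∀ k : ℕ, inner ℂ ((tw hT hq h1)^[k] x₀) M = inner ℂ M M := by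
    intro k
    induction k with
    | zero => exact hin0
    | succ k ih =>
      rw [Function.iterate_succ_apply']
      have h3 := tw_inner hT hq h1 ((tw hT hq h1)^[k] x₀) M
      rw [hMM] at h3
      rw [h3, ih]
  have hbir : ∀ K : ℕ, 0 < K →
      inner ℂ (birkhoffAverage ℂ (tw hT hq h1) _root_.id K x₀) M = inner ℂ M M := by
    intro K hK
    unfold birkhoffAverage birkhoffSum
    rw [inner_smul_left, sum_inner]
    have h3 : ∀ k ∈ range K, inner ℂ (_root_.id ((tw hT hq h1)^[k] x₀)) M = inner ℂ M M :=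
      fun k _ => hiter k
    rw [Finset.sum_congr rfl h3, sum_const, card_range, nsmul_eq_mul, map_inv₀, Complex.conj_natCast]
    have hK' : (K : ℂ) ≠ 0 := by exact_mod_cast hK.ne'
    field_simp
  -- integrals
  have hi1 : ∀ K : ℕ, ∫ ω, ‖SK T q K ω‖ ^ 2 ∂P =
      ‖birkhoffAverage ℂ (tw hT hq h1) _root_.id K x₀‖ ^ 2 := by
    intro K
    rw [← l2_sq]
    refine integral_congr_ae ?_
    filter_upwards [birk_coe hT hq h1 K] with ω e1
    rw [e1]
  have hi2 : ∀ K : ℕ, ∫ ω, ‖SK T q K ω - M ω‖ ^ 2 ∂P =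
      ‖birkhoffAverage ℂ (tw hT hq h1) _root_.id K x₀ - M‖ ^ 2 := by
    intro K
    rw [← l2_sq]
    refine integral_congr_ae ?_
    filter_upwards [birk_coe hT hq h1 K, Lp.coeFn_sub
      (birkhoffAverage ℂ (tw hT hq h1) _root_.id K x₀) M] with ω e1 e2
    rw [e2, Pi.sub_apply, e1]
  have hMm : Measurable (M : Ω → ℂ) := (Lp.stronglyMeasurable M).measurable
  have hqm : ∀ᵐ ω ∂P, q ω * M (T ω) = M ω := by
    have h8 := tw_coe hT hq h1 M
    rw [hMM] at h8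
    filter_upwards [h8] with ω hω
    exact hω.symm
  obtain ⟨c, hc⟩ : ∃ c : ℝ, (fun ω => ‖M ω‖ ^ 2) =ᵐ[P] Function.const Ω c := by
    refine hE.ae_eq_const_of_ae_eq_comp_ae (hMm.norm.pow_const 2).aestronglyMeasurable ?_
    filter_upwards [hqm] with ω hω
    show ‖M (T ω)‖ ^ 2 = ‖M ω‖ ^ 2
    rw [← hω, norm_mul, h1, one_mul]
  have hcM : ‖M‖ ^ 2 = c := by
    rw [← l2_sq, integral_congr_ae hc]
    simp
  refine ⟨c, M, hMm, hc, hqm, ?_, ?_⟩
  · simp_rw [hi1]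
    rw [← hcM]
    exact (ht.norm).pow 2
  · intro K hK
    rw [hi1, hi2, ← hcM, @norm_sub_sq ℂ, hbir K hK, inner_self_eq_norm_sq_to_K]
    norm_cast
    ring

end core

/-! ### the process -/

theorem cv_norm {J : ℕ} (ω : Fin J → Bool) (z : ℂ) : ‖cv ω z‖ = ‖z‖ := by
  unfold cv
  split_ifs
  · rfl
  · exact RCLike.norm_conj z

theorem cv_cont {J : ℕ} (ω : Fin J → Bool) : Continuous (cv ω) := by
  unfold cv
  split_ifs
  · exact continuous_id
  · exact Complex.continuous_conj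

theorem wX_iter (ξ : Xi) (i j : ℕ) : wX (shX^[i] ξ) j = wX ξ (j + i) := by
  unfold wX
  rw [shX_iter]
  congr 2
  push_cast
  ring

theorem st_iter {J : ℕ} (u : Bool × Bool → ℂ) (c : ℕ) (t : Fin J → Bool → ℕ) (ξ : Xi)
    (i l : ℕ) : st u (bl c t (wX (shX^[i] ξ))) l = st u (bl c t (wX ξ)) (l + i) := by
  unfold st bl
  refine Finset.prod_congr rfl fun ω _ => ?_
  rw [wX_iter]
  congr 3
  ring

theorem mm_SK {J : ℕ} (u : Bool × Bool → ℂ) (c : ℕ) (t : Fin J → Bool → ℕ) (K : ℕ) (ξ : Xi) :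
    mm u K (bl c t (wX ξ)) 0 = SK shX (fun ξ => st u (bl c t (wX ξ)) 0) K ξ := by
  unfold mm SK Pr
  congr 1
  refine Finset.sum_congr rfl fun k _ => Finset.prod_congr rfl fun i _ => ?_
  show _ = st u (bl c t (wX (shX^[i] ξ))) 0
  rw [st_iter]

theorem st_cont {J : ℕ} (u : Bool × Bool → ℂ) (c : ℕ) (t : Fin J → Bool → ℕ) (l : ℕ) :
    Continuous fun ξ : Xi => st u (bl c t (wX ξ)) l := by
  unfold st bl
  exact continuous_finsetProd _ fun ω _ => (cv_cont ω).comp (cont_ux u _)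

theorem st_norm {J : ℕ} (u : Bool × Bool → ℂ) (hu : ∀ b, ‖u b‖ = 1)
    (w : (Fin J → Bool) → ℕ → Bool × Bool) (l : ℕ) : ‖st u w l‖ = 1 := by
  unfold st
  rw [norm_prod]
  exact Finset.prod_eq_one fun ω _ => by rw [cv_norm, hu]

theorem pf_MEG : T_MEG := by
  intro J u c t ν hu hν hE
  obtain ⟨k, m, hm, h2, h3, h4, h5⟩ := meg_core (T := shX) hE
    (q := fun ξ => st u (bl c t (wX ξ)) 0) (st_cont u c t 0).measurable
    (fun ξ => st_norm u hu _ _)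
  have h6 : Tendsto (fun K : ℕ => ∫ ξ, ‖mm u K (bl c t (wX ξ)) 0‖ ^ 2 ∂ν) atTop (𝓝 k) := by
    refine h4.congr fun K => ?_
    simp_rw [mm_SK]
  have hk : qT u c t ν = k := h6.limUnder_eq
  rw [hk]
  refine ⟨h6, m, hm, h2, h3, fun K hK => ?_⟩
  simp_rw [mm_SK]
  exact h5 K hK

end Pool.Agent.H7.GNG
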