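import Pool.Agent.H28.GN.T1
import Pool.Agent.H28.GN.T3
import Pool.Agent.H78.LF.CDB
import Pool.Agent.H60.AG.UL

/-! Row SPR of the board `thg_modules` (problem MP_c59857_nt): the spread of the positions. -/

set_option autoImplicit false

open MeasureTheory ProbabilityTheory Filter Topology Finset
open scoped Nat ENNReal

namespace Pool.Agent.H7.GNG

open Pool.Agent.H28.GN
open Pool.Agent.H67.AG (avgP ul Inv)
open Pool.Agent.H28.LF (Cd)

/-! ### counting -/

/-- a sum over a two-to-one map -/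
theorem two_one {α : Type} [DecidableEq α] (s : Finset α) (T : Finset ℕ) (D : α → ℕ)
    (g : ℕ → ℝ) (hg : ∀ d, 0 ≤ g d) (hD : ∀ x ∈ s, D x ∈ T)
    (h2 : ∀ d ∈ T, (s.filter fun x => D x = d).card ≤ 2) :
    ∑ x ∈ s, g (D x) ≤ 2 * ∑ d ∈ T, g d := by
  rw [← sum_fiberwise_of_maps_to hD, mul_sum]
  refine sum_le_sum fun d hd => ?_
  have h3 : ∀ x ∈ s.filter (fun x => D x = d), g (D x) = g d := by
    intro x hx
    rw [(mem_filter.1 hx).2]
  rw [sum_congr rfl h3, sum_const, nsmul_eq_mul]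
  have h4 : ((s.filter fun x => D x = d).card : ℝ) ≤ 2 := by exact_mod_cast h2 d hd
  exact mul_le_mul_of_nonneg_right h4 (hg d)

theorem dif_comm (a b : ℕ) : dif a b = dif b a := by
  unfold dif
  omega

/-- the pairs of an injective function with values at a given distance -/
theorem fib_two {α : Type} [DecidableEq α] (s : Finset α) (f : α → ℕ)
    (hf : ∀ x ∈ s, ∀ y ∈ s, f x = f y → x = y) (p d : ℕ) :
    (s.filter fun x => dif (f x) p = d).card ≤ 2 := by
  have h1 : (s.filter fun x => dif (f x) p = d) ⊆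
      (s.filter fun x => f x = p + d) ∪ (s.filter fun x => f x + d = p) := by
    intro x hx
    rw [mem_filter] at hx
    rw [mem_union, mem_filter, mem_filter]
    unfold dif at hx
    rcases le_total (f x) p with h | h
    · exact Or.inr ⟨hx.1, by omega⟩
    · exact Or.inl ⟨hx.1, by omega⟩
  have h2 : (s.filter fun x => f x = p + d).card ≤ 1 := by
    rw [card_le_one]
    intro x hx y hy
    rw [mem_filter] at hx hy
    exact hf x hx.1 y hy.1 (hx.2.trans hy.2.symm)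
  have h3 : (s.filter fun x => f x + d = p).card ≤ 1 := by
    rw [card_le_one]
    intro x hx y hy
    rw [mem_filter] at hx hy
    exact hf x hx.1 y hy.1 (by omega)
  exact (card_le_card h1).trans ((card_union_le _ _).trans (by omega))

section boxes

variable {J c b H : ℕ}

/-- change of one coordinate -/
def upd (j₀ : Fin J) (e₀ : Bool) (p : (Fin J → Bool → Fin H) × Fin H) :
    (Fin J → Bool → Fin H) × Fin H :=
  (Function.update p.1 j₀ (Function.update (p.1 j₀) e₀ p.2), p.1 j₀ e₀)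

theorem upd_inv (j₀ : Fin J) (e₀ : Bool) : Function.Involutive (upd (H := H) j₀ e₀) := by
  rintro ⟨t, x⟩
  unfold upd
  simp only [Function.update_self, Function.update_idem, Function.update_eq_self]

/-- the average over one coordinate -/
theorem sum_upd (j₀ : Fin J) (e₀ : Bool) (F : (Fin J → Bool → Fin H) → ℝ) :
    (H : ℝ) * ∑ t, F t = ∑ t, ∑ x, F (upd j₀ e₀ (t, x)).1 := by
  have h1 : ∑ p : (Fin J → Bool → Fin H) × Fin H, F (upd j₀ e₀ p).1 =
      ∑ p : (Fin J → Bool → Fin H) × Fin H, F p.1 :=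
    Equiv.sum_comp ((upd_inv (H := H) j₀ e₀).toPerm) (fun p => F p.1)
  rw [Fintype.sum_prod_type, Fintype.sum_prod_type] at h1
  rw [h1]
  simp only [sum_const, card_univ, Fintype.card_fin, nsmul_eq_mul]
  rw [mul_sum]

/-- the position of a vertex, coordinates below `H` -/
def pz (c : ℕ) (t : Fin J → Bool → Fin H) (ω : Fin J → Bool) : ℕ :=
  ps c (fun j e => (t j e : ℕ)) ω

theorem pz_upd_ne (t : Fin J → Bool → Fin H) (ω : Fin J → Bool) (j₀ : Fin J) (e₀ : Bool)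
    (x : Fin H) (h : ω j₀ ≠ e₀) : pz c (upd j₀ e₀ (t, x)).1 ω = pz c t ω := by
  unfold pz ps upd
  congr 1
  refine sum_congr rfl fun j _ => ?_
  show ((Function.update t j₀ (Function.update (t j₀) e₀ x) j (ω j) : Fin H) : ℕ) =
    (t j (ω j) : ℕ)
  by_cases hj : j = j₀
  · subst hj
    rw [Function.update_self, Function.update_of_ne h]
  · rw [Function.update_of_ne hj]

theorem pz_upd_eq (t : Fin J → Bool → Fin H) (ω : Fin J → Bool) (j₀ : Fin J) (x : Fin H) :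
    pz c (upd j₀ (ω j₀) (t, x)).1 ω =
      c * (x : ℕ) + c * ∑ j ∈ univ.erase j₀, ((t j (ω j) : Fin H) : ℕ) := by
  unfold pz ps upd
  rw [← mul_add, ← add_sum_erase univ _ (mem_univ j₀)]
  congr 2
  · show ((Function.update t j₀ (Function.update (t j₀) (ω j₀) x) j₀ (ω j₀) : Fin H) : ℕ) =
      (x : ℕ)
    rw [Function.update_self, Function.update_self]
  · refine sum_congr rfl fun j hj => ?_
    show ((Function.update t j₀ (Function.update (t j₀) (ω j₀) x) j (ω j) : Fin H) : ℕ) =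
      (t j (ω j) : ℕ)
    rw [Function.update_of_ne (ne_of_mem_erase hj)]

/-- the sum over one coordinate -/
theorem one_coord (hc : 0 < c) (g : ℕ → ℝ) (hg : ∀ d, 0 ≤ g d) (R : ℕ)
    (t : Fin J → Bool → Fin H) (ω ω' : Fin J → Bool) (a a' : ℕ) (j₀ : Fin J)
    (h : ω j₀ ≠ ω' j₀) :
    ∑ x : Fin H, (if dif (a + pz c (upd j₀ (ω j₀) (t, x)).1 ω)
        (a' + pz c (upd j₀ (ω j₀) (t, x)).1 ω') ∈ Icc 1 R then
      g (dif (a + pz c (upd j₀ (ω j₀) (t, x)).1 ω) (a' + pz c (upd j₀ (ω j₀) (t, x)).1 ω'))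
      else 0) ≤ 2 * ∑ d ∈ Icc 1 R, g d := by
  classical
  rw [← sum_filter]
  refine two_one _ (Icc 1 R) (fun x : Fin H => dif (a + pz c (upd j₀ (ω j₀) (t, x)).1 ω)
    (a' + pz c (upd j₀ (ω j₀) (t, x)).1 ω')) g hg ?_ ?_
  · intro x hx
    exact (mem_filter.1 hx).2
  · intro d _
    simp only [pz_upd_ne t ω' j₀ (ω j₀) _ (Ne.symm h)]
    refine (fib_two _ (fun x : Fin H => a + pz c (upd j₀ (ω j₀) (t, x)).1 ω) ?_ _ d)
    intro x _ y _ hxy
    simp only [pz_upd_eq] at hxy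
    have h3 : c * (x : ℕ) = c * (y : ℕ) := by omega
    exact Fin.ext (Nat.eq_of_mul_eq_mul_left hc h3)

/-- the sum over all boxes -/
theorem all_boxes (hc : 0 < c) (hH : 0 < H) (g : ℕ → ℝ) (hg : ∀ d, 0 ≤ g d) (R : ℕ)
    (ω ω' : Fin J → Bool) (hω : ω ≠ ω') (a a' : ℕ) :
    ∑ t : Fin J → Bool → Fin H, (if dif (a + pz c t ω) (a' + pz c t ω') ∈ Icc 1 R then
      g (dif (a + pz c t ω) (a' + pz c t ω')) else 0) ≤
      (H : ℝ) ^ (2 * J) * (2 / H * ∑ d ∈ Icc 1 R, g d) := by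
  have hHr : (0 : ℝ) < H := by exact_mod_cast hH
  obtain ⟨j₀, hj₀⟩ : ∃ j, ω j ≠ ω' j := by
    by_contra h
    push Not at h
    exact hω (funext h)
  have h1 := sum_upd (H := H) j₀ (ω j₀) (fun t => if dif (a + pz c t ω) (a' + pz c t ω') ∈
    Icc 1 R then g (dif (a + pz c t ω) (a' + pz c t ω')) else 0)
  have h2 : ∑ t : Fin J → Bool → Fin H, ∑ x : Fin H,
      (if dif (a + pz c (upd j₀ (ω j₀) (t, x)).1 ω) (a' + pz c (upd j₀ (ω j₀) (t, x)).1 ω') ∈
        Icc 1 R then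
      g (dif (a + pz c (upd j₀ (ω j₀) (t, x)).1 ω) (a' + pz c (upd j₀ (ω j₀) (t, x)).1 ω'))
      else 0) ≤ ∑ _t : Fin J → Bool → Fin H, 2 * ∑ d ∈ Icc 1 R, g d :=
    sum_le_sum fun t _ => one_coord hc g hg R t ω ω' a a' j₀ hj₀
  rw [sum_const, card_univ, nsmul_eq_mul] at h2
  have h3 : (Fintype.card (Fin J → Bool → Fin H) : ℝ) = (H : ℝ) ^ (2 * J) := by
    rw [Fintype.card_fun, Fintype.card_fun, Fintype.card_bool, Fintype.card_fin, Fintype.card_fin]
    push_cast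
    rw [← pow_mul]
  rw [h3] at h2
  have h4 := h1.le.trans h2
  have h5 : (H : ℝ) ^ (2 * J) * (2 / H * ∑ d ∈ Icc 1 R, g d) =
      ((H : ℝ) ^ (2 * J) * (2 * ∑ d ∈ Icc 1 R, g d)) / H := by
    field_simp
  rw [h5, le_div_iff₀ hHr, mul_comm]
  exact h4

theorem po_val (t : PtG J c b H) (p : Pl J b) : ((po t p : Fin (c * J * H + b)) : ℕ) =
    (p.2 : ℕ) + pz c t.1 p.1 := rfl

/-- the places in the same block -/
theorem same_block (g : ℕ → ℝ) (hg : ∀ d, 0 ≤ g d) (t : PtG J c b H) (i : Pl J b) :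
    ∑ j ∈ (univ.erase i).filter (fun j => j.1 = i.1), g (dif (po t i : ℕ) (po t j : ℕ)) ≤
      2 * ∑ d ∈ Icc 1 b, g d := by
  refine two_one _ (Icc 1 b) (fun j => dif (po t i : ℕ) (po t j : ℕ)) g hg ?_ ?_
  · intro j hj
    rw [mem_filter, mem_erase] at hj
    rw [mem_Icc, po_val, po_val, hj.2]
    have h1 : (j.2 : ℕ) ≠ (i.2 : ℕ) := fun h => hj.1.1 (Prod.ext hj.2 (Fin.ext h))
    have h2 := i.2.2
    have h3 := j.2.2
    unfold dif
    omega
  · intro d _
    simp only [dif_comm ((po t i : Fin _) : ℕ)]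
    refine fib_two _ (fun j : Pl J b => ((po t j : Fin _) : ℕ)) ?_ _ d
    intro x hx y hy hxy
    rw [mem_filter] at hx hy
    simp only [po_val, hx.2, hy.2] at hxy
    exact Prod.ext (hx.2.trans hy.2.symm) (Fin.ext (by omega))

/-- the places in another block -/
theorem other_block (hc : 0 < c) (hH : 0 < H) (g : ℕ → ℝ) (hg : ∀ d, 0 ≤ g d)
    (i j : Pl J b) (hij : j.1 ≠ i.1) :
    ∑ t : PtG J c b H, g (dif (po t i : ℕ) (po t j : ℕ)) ≤
      (H : ℝ) ^ (2 * J) * (2 / H * ∑ d ∈ Icc 1 (c * J * H + b), g d) := by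
  classical
  refine le_trans ?_ (all_boxes hc hH g hg (c * J * H + b) i.1 j.1 (Ne.symm hij) i.2 j.2)
  have h1 : ∑ t : PtG J c b H, g (dif (po t i : ℕ) (po t j : ℕ)) =
      ∑ t ∈ univ.filter (fun t : Fin J → Bool → Fin H => Act J c b H t),
        g (dif ((i.2 : ℕ) + pz c t i.1) ((j.2 : ℕ) + pz c t j.1)) := by
    rw [sum_subtype (univ.filter fun t : Fin J → Bool → Fin H => Act J c b H t)
      (p := fun t => Act J c b H t) (fun t => by simp)]
    rfl
  rw [h1]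
  have h2 : ∀ t ∈ univ.filter (fun t : Fin J → Bool → Fin H => Act J c b H t),
      g (dif ((i.2 : ℕ) + pz c t i.1) ((j.2 : ℕ) + pz c t j.1)) =
      if dif ((i.2 : ℕ) + pz c t i.1) ((j.2 : ℕ) + pz c t j.1) ∈ Icc 1 (c * J * H + b) then
        g (dif ((i.2 : ℕ) + pz c t i.1) ((j.2 : ℕ) + pz c t j.1)) else 0 := by
    intro t ht
    rw [if_pos]
    have hA : Act J c b H t := (mem_filter.1 ht).2
    have h3 : b ≤ dif (pz c t i.1) (pz c t j.1) := hA i.1 j.1 (Ne.symm hij)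
    have h4 : pz c t i.1 ≤ c * J * H := ps_le (⟨t, hA⟩ : PtG J c b H) i.1
    have h5 : pz c t j.1 ≤ c * J * H := ps_le (⟨t, hA⟩ : PtG J c b H) j.1
    have h6 := i.2.2
    have h7 := j.2.2
    rw [mem_Icc]
    unfold dif at h3 ⊢
    omega
  rw [sum_congr rfl h2]
  refine sum_le_sum_of_subset_of_nonneg (filter_subset _ _) fun t _ _ => ?_
  split_ifs
  · exact hg _
  · exact le_rfl

/-- the sum for one place -/
theorem one_place (hc : 0 < c) (hH : 0 < H) (g : ℕ → ℝ) (hg : ∀ d, 0 ≤ g d) (i : Pl J b) :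
    ∑ t : PtG J c b H, ∑ j ∈ univ.erase i, g (dif (po t i : ℕ) (po t j : ℕ)) ≤
      (Fintype.card (PtG J c b H) : ℝ) * (2 * ∑ d ∈ Icc 1 b, g d) +
      (2 ^ J * b : ℝ) * ((H : ℝ) ^ (2 * J) * (2 / H * ∑ d ∈ Icc 1 (c * J * H + b), g d)) := by
  classical
  have hS : 0 ≤ (H : ℝ) ^ (2 * J) * (2 / H * ∑ d ∈ Icc 1 (c * J * H + b), g d) :=
    mul_nonneg (by positivity) (mul_nonneg (by positivity) (sum_nonneg fun d _ => hg d))
  have h1 : ∀ t : PtG J c b H, ∑ j ∈ univ.erase i, g (dif (po t i : ℕ) (po t j : ℕ)) =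
      ∑ j ∈ (univ.erase i).filter (fun j => j.1 = i.1), g (dif (po t i : ℕ) (po t j : ℕ)) +
      ∑ j ∈ (univ.erase i).filter (fun j => ¬ j.1 = i.1), g (dif (po t i : ℕ) (po t j : ℕ)) :=
    fun t => (sum_filter_add_sum_filter_not _ _ _).symm
  rw [sum_congr rfl fun t _ => h1 t, sum_add_distrib]
  refine add_le_add ?_ ?_
  · refine (sum_le_sum fun t _ => same_block g hg t i).trans (le_of_eq ?_)
    rw [sum_const, card_univ, nsmul_eq_mul]
  · rw [sum_comm]
    refine (sum_le_sum fun j hj => other_block hc hH g hg i j (mem_filter.1 hj).2).trans ?_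
    rw [sum_const, nsmul_eq_mul]
    refine mul_le_mul_of_nonneg_right ?_ hS
    have h2 : ((univ.erase i).filter (fun j => ¬ j.1 = i.1)).card ≤
        Fintype.card (Pl J b) := card_le_univ _
    have h3 : Fintype.card (Pl J b) = 2 ^ J * b := by
      rw [Fintype.card_prod, Fintype.card_fun, Fintype.card_bool, Fintype.card_fin,
        Fintype.card_fin]
    rw [h3] at h2
    exact_mod_cast h2

end boxes

theorem pf_SPR (hS : Pool.Agent.H28.LF.T_STC) (hM : T_SM1) : T_SPR := by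
  intro J c b H _ U γ κ I hU hJ hc hb hγ hγ1 hκ hκ1 hbH hcard
  intro Ω _ P _ T f hT hf hf01 hE
  have hCDB : Pool.Agent.H28.LF.T_CDB := Pool.Agent.H78.LF.pf_CDB Pool.Agent.H60.AG.pf_UL
  obtain ⟨g, hgd⟩ : ∃ g : ℕ → ℝ, g = fun d => Cd U P T f Set.univ d := ⟨_, rfl⟩
  have hg : ∀ d, 0 ≤ g d := by
    intro d
    rw [hgd]
    exact ((hCDB Ω P T U Set.univ d hT hU MeasurableSet.univ).1 f hf hf01).1
  have hI0 : 0 ≤ ∫ ω, f ω ∂P := integral_nonneg fun ω => (hf01 ω).1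
  have h2J : (1 : ℝ) ≤ 2 ^ J := one_le_pow₀ (by norm_num)
  have hbr : (1 : ℝ) ≤ b := by exact_mod_cast hb
  have hcr : (1 : ℝ) ≤ c := by exact_mod_cast hc
  have hJr : (1 : ℝ) ≤ J := by exact_mod_cast hJ
  have hHr : (128 : ℝ) ≤ H := by
    have h1 : (128 : ℝ) ≤ 128 * 2 ^ J * b := by nlinarith [mul_le_mul h2J hbr zero_le_one (by positivity)]
    have h2 : γ * (H : ℝ) ≤ 1 * H := mul_le_mul_of_nonneg_right hγ1 (Nat.cast_nonneg _)
    linarith
  have hH0 : (0 : ℝ) < H := by linarith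
  have hH : 0 < H := by exact_mod_cast hH0
  obtain ⟨m, hm⟩ : ∃ m : ℝ, m = 2 ^ J * b := ⟨_, rfl⟩
  have hm1 : 1 ≤ m := by rw [hm]; nlinarith
  have hcm : (Fintype.card (Pl J b) : ℝ) = m := by
    rw [Fintype.card_prod, Fintype.card_fun, Fintype.card_bool, Fintype.card_fin,
      Fintype.card_fin, hm]
    push_cast
    rfl
  rw [hcm] at hE
  have hE' : ∀ᵐ ω ∂P, (P[f | Inv T 1]) ω ≤ 2 * (κ / m) := by
    filter_upwards [hE] with ω hω
    rw [← mul_div_assoc]
    exact hω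
  have hu0 : 0 ≤ κ / m := by positivity
  have hcJ : (1 : ℝ) ≤ c * J := by nlinarith
  have hκ2 : κ * (65536 * c * J) ≤ γ ^ 2 := by
    rwa [le_div_iff₀ (by positivity)] at hκ1
  -- same block
  have h1 : 2 * ∑ d ∈ Icc 1 b, g d ≤ γ / 2 / 8 * ∫ ω, f ω ∂P := by
    rw [hgd]
    refine hS Ω P T U f b (γ / 2) (κ / m) hT hU hf hf01 (by linarith) (by linarith) hu0 ?_ hE'
    have e1 : (b : ℝ) * (κ / m) = κ / 2 ^ J := by
      rw [hm]
      field_simp
    rw [e1]
    have e2 : κ / 2 ^ J ≤ κ := div_le_self hκ.le h2J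
    have e3 : κ * 65536 ≤ κ * (65536 * c * J) := by
      refine mul_le_mul_of_nonneg_left ?_ hκ.le
      nlinarith
    nlinarith
  -- other blocks
  have h2 : ∑ d ∈ Icc 1 (c * J * H + b), g d ≤
      (14 * ((c * J * H + b : ℕ) : ℝ) * (κ / m) + 1) * ∫ ω, f ω ∂P := by
    rw [hgd]
    exact hM Ω P T U f (c * J * H + b) (κ / m) hT hU hf hf01 (by omega) hu0 hE'
  have h3 : (m : ℝ) * (4 / H) * ((14 * ((c * J * H + b : ℕ) : ℝ) * (κ / m) + 1)) ≤ γ / 16 := by
    have e1 : ((c * J * H + b : ℕ) : ℝ) ≤ 2 * (c * J * H) := by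
      push_cast
      have e2 : (b : ℝ) ≤ H := by
        have e3 : γ * (H : ℝ) ≤ 1 * H := mul_le_mul_of_nonneg_right hγ1 (Nat.cast_nonneg _)
        have e4 : (b : ℝ) ≤ 128 * 2 ^ J * b := by nlinarith
        linarith
      nlinarith
    have e5 : (m : ℝ) * (4 / H) * ((14 * ((c * J * H + b : ℕ) : ℝ) * (κ / m) + 1)) ≤
        (m : ℝ) * (4 / H) * ((14 * (2 * (c * J * H)) * (κ / m) + 1)) := by
      gcongr
    refine e5.trans ?_
    have e6 : (m : ℝ) * (4 / H) * ((14 * (2 * (c * J * H)) * (κ / m) + 1)) =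
        112 * (c * J * κ) + 4 * m / H := by
      have : m ≠ 0 := by linarith
      field_simp
      ring
    rw [e6]
    have e7 : 4 * m / H ≤ γ / 32 := by
      rw [div_le_iff₀ hH0, hm]
      linarith
    have e8 : 112 * (c * J * κ) ≤ γ / 32 := by
      have : γ ^ 2 ≤ γ := by nlinarith
      linarith
    linarith
  have hP0 : (0 : ℝ) < Fintype.card (PtG J c b H) := by exact_mod_cast Fintype.card_pos
  have h4 : ∀ i : Pl J b, ∑ t : PtG J c b H, ∑ j ∈ univ.erase i,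
      g (dif (po t i : ℕ) (po t j : ℕ)) ≤
      (Fintype.card (PtG J c b H) : ℝ) * (γ / 8 * ∫ ω, f ω ∂P) := by
    intro i
    refine (one_place hc hH g hg i).trans ?_
    rw [← hm]
    have e1 : (H : ℝ) ^ (2 * J) * (2 / H * ∑ d ∈ Icc 1 (c * J * H + b), g d) ≤
        (2 * Fintype.card (PtG J c b H)) * (2 / H * ((14 * ((c * J * H + b : ℕ) : ℝ) *
          (κ / m) + 1) * ∫ ω, f ω ∂P)) := by
      refine mul_le_mul hcard ?_ (mul_nonneg (by positivity) (sum_nonneg fun d _ => hg d))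
        (by positivity)
      exact mul_le_mul_of_nonneg_left h2 (by positivity)
    have e2 : m * ((H : ℝ) ^ (2 * J) * (2 / H * ∑ d ∈ Icc 1 (c * J * H + b), g d)) ≤
        Fintype.card (PtG J c b H) * ((γ / 16) * ∫ ω, f ω ∂P) := by
      refine (mul_le_mul_of_nonneg_left e1 (by linarith)).trans ?_
      have e3 : m * ((2 * Fintype.card (PtG J c b H)) * (2 / H * ((14 *
          ((c * J * H + b : ℕ) : ℝ) * (κ / m) + 1) * ∫ ω, f ω ∂P))) =
          Fintype.card (PtG J c b H) * ((m * (4 / H) * (14 *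
          ((c * J * H + b : ℕ) : ℝ) * (κ / m) + 1)) * ∫ ω, f ω ∂P) := by ring
      rw [e3]
      refine mul_le_mul_of_nonneg_left (mul_le_mul_of_nonneg_right h3 hI0) hP0.le
    have e4 : (Fintype.card (PtG J c b H) : ℝ) * (2 * ∑ d ∈ Icc 1 b, g d) ≤
        Fintype.card (PtG J c b H) * (γ / 2 / 8 * ∫ ω, f ω ∂P) :=
      mul_le_mul_of_nonneg_left h1 hP0.le
    nlinarith
  show Sp U (fun t : PtG J c b H => po t) I P T f Set.univ ≤ γ / 8 * I.card * ∫ ω, f ω ∂P
  unfold Sp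
  rw [div_le_iff₀ hP0, sum_comm]
  have h5 : ∀ i ∈ I, ∑ t : PtG J c b H, ∑ j ∈ univ.erase i,
      Cd U P T f Set.univ (dif (po t i : ℕ) (po t j : ℕ)) ≤
      (Fintype.card (PtG J c b H) : ℝ) * (γ / 8 * ∫ ω, f ω ∂P) := by
    intro i _
    have := h4 i
    rw [hgd] at this
    exact this
  refine (sum_le_sum h5).trans (le_of_eq ?_)
  rw [sum_const, nsmul_eq_mul]
  ring

end Pool.Agent.H7.GNG
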